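import Pool.Agent.Y745.LT.Defs

set_option autoImplicit false

/-! ZTAIL: zeta is small near the simple zeros with a small derivative (helper781, for the LT project of
helper745). -/

namespace Pool.Agent.Y781.LT

open Filter Topology MeasureTheory Complex H370 Pool.Agent.Y745.SW Pool.Agent.Y745.LD Pool.Agent.Y745.LT

lemma tendsto_LL : Tendsto LL atTop atTop := Real.tendsto_log_atTop.comp Real.tendsto_log_atTop

/-- the number of disjoint intervals of length `2 w` in a set of finite measure -/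
lemma card_le {F : Finset ℂ} {w : ℝ} {E : Set ℝ} (hw : 0 < w) (hE : volume E ≠ ⊤)
    (hsep : ∀ s ∈ F, ∀ s' ∈ F, s ≠ s' → 2 * w < |s.im - s'.im|)
    (hsub : ∀ s ∈ F, Set.Icc (s.im - w) (s.im + w) ⊆ E) :
    (F.card : ℝ) * (2 * w) ≤ volume.real E := by
  have hd : (↑F : Set ℂ).PairwiseDisjoint fun s => Set.Icc (s.im - w) (s.im + w) := by
    intro s hs s' hs' hne
    have h1 := hsep s (Finset.mem_coe.mp hs) s' (Finset.mem_coe.mp hs') hne
    rw [Function.onFun, Set.disjoint_left]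
    intro t ht ht'
    rcases lt_abs.mp h1 with h | h
    · linarith [ht.2, ht'.1, ht.1, ht'.2]
    · linarith [ht.2, ht'.1, ht.1, ht'.2]
  have h1 : volume.real (⋃ s ∈ F, Set.Icc (s.im - w) (s.im + w)) =
      ∑ s ∈ F, volume.real (Set.Icc (s.im - w) (s.im + w)) :=
    measureReal_biUnion_finset hd (fun s _ => measurableSet_Icc)
      (fun s _ => by rw [Real.volume_Icc]; exact ENNReal.ofReal_ne_top)
  have h2 : volume.real (⋃ s ∈ F, Set.Icc (s.im - w) (s.im + w)) ≤ volume.real E :=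
    measureReal_mono (Set.iUnion₂_subset hsub) hE
  rw [h1] at h2
  refine le_trans (le_of_eq ?_) h2
  rw [Finset.sum_congr rfl (fun s _ => Real.volume_real_Icc_of_le (by linarith : s.im - w ≤ s.im + w)),
    ← nsmul_eq_mul, ← Finset.sum_const]
  refine Finset.sum_congr rfl fun s _ => ?_
  ring

/-- zeta near one isolated zero -/
lemma one_zero {C θ δ L A1 η t0 t : ℝ} (hC : 1 ≤ C) (hθ : 0 < θ) (hθ1 : θ ≤ 1 / 4)
    (hL : 1 ≤ L) (hδ : 0 < δ) (hδ1 : δ ≤ 1 / 10) (hη : 0 ≤ η)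
    (hCθ : C * θ * (A1 + 2) ≤ η) (hlogδ : Real.log (2 / δ) ≤ Real.log L)
    (hH : ∀ (f : ℂ → ℂ) (ρ s1 : ℂ) (r M θ : ℝ), 0 < r → 0 < θ → θ ≤ 1 / 4 →
      AnalyticOnNhd ℂ f (Metric.closedBall ρ r) → f ρ = 0 → deriv f ρ ≠ 0 →
      (∀ z ∈ Metric.closedBall ρ r, z ≠ ρ → f z ≠ 0) → (∀ z ∈ Metric.closedBall ρ r, ‖f z‖ ≤ Real.exp M) →
      s1 ≠ ρ → ‖s1 - ρ‖ ≤ θ * r →
        |Real.log ‖deriv f ρ‖ - (Real.log ‖f s1‖ - Real.log ‖s1 - ρ‖)| ≤
          C * θ * (M - Real.log r - (Real.log ‖f s1‖ - Real.log ‖s1 - ρ‖)))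
    {s : ℂ} (hs0 : riemannZeta s = 0) (hsre : s.re = 1 / 2) (hsim : 2 ≤ s.im)
    (hsd : deriv riemannZeta s ≠ 0)
    (hne : ∀ z ∈ Metric.closedBall s (δ / (2 * L)), z ≠ s → riemannZeta z ≠ 0)
    (ht0 : |t0 - s.im| ≤ δ / (2 * L) / 2)
    (hup : ∀ z : ℂ, ‖z - (1 / 2 + t0 * I)‖ ≤ 1 / L → ‖riemannZeta z‖ ≤ L ^ A1)
    (hD : Real.log ‖deriv riemannZeta s‖ ≤ (1 / 2 + η) * Real.log L)
    (htne : t ≠ s.im) (ht : |t - s.im| ≤ θ * (δ / (2 * L))) :
    ‖riemannZeta (1 / 2 + t * I)‖ ≤ |t - s.im| * Real.exp ((1 / 2 + 2 * η) * Real.log L) := by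
  set R : ℝ := δ / (2 * L) with hR
  have hL0 : 0 < L := by linarith
  have hℓ : 0 ≤ Real.log L := Real.log_nonneg hL
  have hR0 : 0 < R := by positivity
  have hRL : R * L = δ / 2 := by rw [hR]; field_simp
  have hR1 : R ≤ 1 / 20 := by
    rw [hR, div_le_div_iff₀ (by positivity) (by norm_num)]
    nlinarith
  have hU : Metric.closedBall s R ⊆ ({1}ᶜ : Set ℂ) := by
    intro z hz
    rw [Metric.mem_closedBall, dist_eq_norm] at hz
    rw [Set.mem_compl_iff, Set.mem_singleton_iff]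
    rintro rfl
    have h2 := (Complex.abs_im_le_norm (1 - s)).trans hz
    rw [Complex.sub_im, Complex.one_im, zero_sub, abs_neg, abs_of_pos (by linarith)] at h2
    linarith
  have hd : DifferentiableOn ℂ riemannZeta ({1}ᶜ : Set ℂ) := fun z hz =>
    (differentiableAt_riemannZeta hz).differentiableWithinAt
  have key : ∀ τ : ℝ, ‖((1 / 2 : ℂ) + τ * I) - s‖ = |τ - s.im| := by
    intro τ
    have h1 : (1 / 2 : ℂ) + τ * Complex.I - s = ((τ - s.im : ℝ) : ℂ) * Complex.I := by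
      apply Complex.ext
      · simp [hsre]
      · simp
    rw [h1, norm_mul, Complex.norm_I, mul_one, Complex.norm_real, Real.norm_eq_abs]
  set s1 : ℂ := 1 / 2 + t * Complex.I with hs1
  have hnorm : ‖s1 - s‖ = |t - s.im| := key t
  have htp : 0 < |t - s.im| := abs_pos.2 (sub_ne_zero.2 htne)
  have hs1ne : s1 ≠ s := by
    intro h
    rw [h, sub_self, norm_zero] at hnorm
    linarith
  have hupb : ∀ z ∈ Metric.closedBall s R, ‖riemannZeta z‖ ≤ Real.exp (A1 * Real.log L) := by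
    intro z hz
    rw [Metric.mem_closedBall, dist_eq_norm] at hz
    have h1 := hup z (by
      have h2 : z - (1 / 2 + t0 * I) = (z - s) - ((1 / 2 + t0 * I) - s) := by ring
      rw [h2]
      refine (norm_sub_le _ _).trans ?_
      rw [key t0, le_div_iff₀ hL0]
      have h4 : (‖z - s‖ + |t0 - s.im|) * L ≤ (R + R / 2) * L := by gcongr
      have h5 : (R + R / 2) * L = 3 / 2 * (R * L) := by ring
      rw [h5, hRL] at h4
      linarith)
    rwa [Real.rpow_def_of_pos hL0, mul_comm] at h1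
  have hθR : θ * R ≤ R := by
    have : θ * R ≤ 1 / 4 * R := by gcongr
    linarith
  have hz1 : riemannZeta s1 ≠ 0 := by
    refine hne s1 ?_ hs1ne
    rw [Metric.mem_closedBall, dist_eq_norm, hnorm]
    exact ht.trans hθR
  have hhar := hH riemannZeta s s1 R (A1 * Real.log L) θ hR0 hθ hθ1
    ((hd.analyticOnNhd isOpen_compl_singleton).mono hU) hs0 hsd hne hupb hs1ne
    (by rw [hnorm]; exact ht)
  rw [hnorm] at hhar
  set D := Real.log ‖deriv riemannZeta s‖ with hDd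
  set w := Real.log ‖riemannZeta s1‖ - Real.log |t - s.im| with hw
  have hlogR : Real.log R = -Real.log L - Real.log (2 / δ) := by
    have h1 : R = (L * (2 / δ))⁻¹ := by rw [hR]; field_simp
    rw [h1, Real.log_inv, Real.log_mul hL0.ne' (by positivity)]
    ring
  have hCt : 0 < C * θ := by positivity
  have e1 : w ≤ D + C * θ * (A1 * Real.log L - Real.log R - w) := by
    have := (abs_le.mp hhar).1
    linarith
  have e2 : A1 * Real.log L - Real.log R ≤ (A1 + 2) * Real.log L := by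
    rw [hlogR]
    linarith
  have e3 : C * θ * (A1 * Real.log L - Real.log R) ≤ η * Real.log L := by
    calc C * θ * (A1 * Real.log L - Real.log R) ≤ C * θ * ((A1 + 2) * Real.log L) := by gcongr
      _ = (C * θ * (A1 + 2)) * Real.log L := by ring
      _ ≤ _ := by gcongr
  have e4 : w * (1 + C * θ) ≤ (1 / 2 + 2 * η) * Real.log L := by
    have h1 : C * θ * (A1 * Real.log L - Real.log R - w) =
      C * θ * (A1 * Real.log L - Real.log R) - C * θ * w := by ring
    rw [h1] at e1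
    linarith
  have e5 : w ≤ (1 / 2 + 2 * η) * Real.log L := by
    rcases le_or_gt 0 w with h | h
    · have : 0 ≤ w * (C * θ) := by positivity
      linarith
    · have : 0 ≤ (1 / 2 + 2 * η) * Real.log L := by positivity
      linarith
  have hz1p : 0 < ‖riemannZeta s1‖ := norm_pos_iff.2 hz1
  rw [← Real.exp_log hz1p]
  have h6 : |t - s.im| * Real.exp ((1 / 2 + 2 * η) * Real.log L) =
      Real.exp (Real.log |t - s.im| + (1 / 2 + 2 * η) * Real.log L) := by
    rw [Real.exp_add, Real.exp_log htp]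
  rw [h6]
  refine Real.exp_le_exp.2 ?_
  rw [hw] at e5
  linarith

open Classical in
/-- the statement of `Pool.Agent.Y745.LD.final` -/
def S_FIN : Prop := ∃ δ : ℝ, 0 < δ ∧ δ ≤ 1 / 10 ∧ ∀ κ ε : ℝ, 0 < ε → ∀ᶠ T : ℝ in atTop,
    ∃ U1 U2 : ℝ, T ≤ U1 ∧ U1 ≤ T + 1 ∧ 2 * T - 1 ≤ U2 ∧ U2 ≤ 2 * T ∧
    T * Real.log T ^ (1 - κ ^ 2 - ε) ≤
      (((isoS U1 U2 (δ / Real.log T)).filter (fun s => T + 2 ≤ s.im ∧ s.im ≤ 2 * T - 2 ∧
        |Real.log ‖deriv riemannZeta s‖ - (1 + κ) * LL T| ≤ ε * LL T)).card : ℝ)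

theorem core (hfin : S_FIN) (hZUP : P_ZUP) (hHAR : P_HAR) (hg : GoodL riemannZeta)
    (hdn : ∀ s : ℂ, s ≠ 1 → riemannZeta s = 0 → H370.mult riemannZeta s = 1 → deriv riemannZeta s ≠ 0) :
    P_ZTAIL := by
  classical
  intro ε hε
  obtain ⟨δ, hδ, hδ1, hfin⟩ := hfin
  obtain ⟨C, hC1, hH⟩ := hHAR
  have hC0 : 0 < C := by linarith
  obtain ⟨A1, hA1, hZ⟩ := hZUP 3 (by norm_num)
  set η : ℝ := min (ε / 8) (1 / 8) with hη
  have hη0 : 0 < η := lt_min (by positivity) (by norm_num)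
  have hηε : 8 * η ≤ ε := by
    have : η ≤ ε / 8 := min_le_left _ _
    linarith
  have hη8 : η ≤ 1 / 8 := min_le_right _ _
  clear_value η
  set θ : ℝ := min (1 / 4) (η / (C * (A1 + 2))) with hθ
  have hθ0 : 0 < θ := by
    rw [hθ]; exact lt_min (by norm_num) (by positivity)
  have hθ4 : θ ≤ 1 / 4 := min_le_left _ _
  have hCθ : C * θ * (A1 + 2) ≤ η := by
    have h1 : θ ≤ η / (C * (A1 + 2)) := min_le_right _ _
    calc C * θ * (A1 + 2) ≤ C * (η / (C * (A1 + 2))) * (A1 + 2) := by gcongr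
      _ = η := by field_simp
  clear_value θ
  filter_upwards [hfin (-1 / 2) η hη0, hZ, Real.tendsto_log_atTop.eventually_ge_atTop (max 2 (4 / δ)),
    tendsto_LL.eventually_ge_atTop (max 1 (Real.log (2 / δ))),
    tendsto_LL.eventually_ge_atTop (-Real.log (θ * δ / 2) / (3 * η)),
    eventually_ge_atTop (100 : ℝ)] with T h1 h2 h3 h4 h5 hT
  intro x hx
  obtain ⟨U1, U2, hU1, hU1', hU2, hU2', hcard⟩ := h1
  obtain ⟨E, hEm, hET, hEv, hEu⟩ := h2
  set L := Real.log T with hL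
  have hL2 : 2 ≤ L := (le_max_left _ _).trans h3
  have hLδ : 4 / δ ≤ L := (le_max_right _ _).trans h3
  have hL1 : 1 ≤ L := by linarith
  have hL0 : 0 < L := by linarith
  have hT0 : 0 < T := by linarith
  have hLLL : LL T = Real.log L := rfl
  set ℓ := LL T with hℓ
  have hℓ1 : 1 ≤ ℓ := (le_max_left _ _).trans h4
  have hℓδ : Real.log (2 / δ) ≤ ℓ := (le_max_right _ _).trans h4
  have hℓ0 : 0 < ℓ := by linarith
  have hLpow : ∀ y : ℝ, L ^ y = Real.exp (y * ℓ) := fun y => by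
    rw [Real.rpow_def_of_pos hL0, hLLL, mul_comm]
  set R : ℝ := δ / (2 * L) with hR
  have hR0 : 0 < R := by positivity
  have hRL : δ / L = 2 * R := by rw [hR]; field_simp
  have hR1 : R ≤ 1 / 20 := by
    rw [hR, div_le_div_iff₀ (by positivity) (by norm_num)]
    linarith only [hδ1, hL1]
  set F : Finset ℂ := (isoS U1 U2 (δ / L)).filter (fun s => T + 2 ≤ s.im ∧ s.im ≤ 2 * T - 2 ∧
        |Real.log ‖deriv riemannZeta s‖ - (1 + -1 / 2) * ℓ| ≤ η * ℓ) with hF
  have hU1one : 1 ≤ U1 := by linarith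
  have hmem : ∀ z, z ∈ Zf riemannZeta U1 U2 ↔ z ∈ zset riemannZeta U1 U2 := fun z =>
    mem_Zf hg hU1one
  have hprop : ∀ s ∈ F, s.re = 1 / 2 ∧ mult riemannZeta s = 1 ∧ riemannZeta s = 0 ∧
      (∀ s' ∈ Zf riemannZeta U1 U2, s' ≠ s → δ / L ≤ ‖s - s'‖) ∧ s ∈ Zf riemannZeta U1 U2 ∧
      T + 2 ≤ s.im ∧ s.im ≤ 2 * T - 2 ∧
      |Real.log ‖deriv riemannZeta s‖ - (1 + -1 / 2) * ℓ| ≤ η * ℓ := by
    intro s hs
    rw [hF, Finset.mem_filter] at hs
    obtain ⟨h1, h2, h3, h4⟩ := hs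
    unfold isoS at h1
    rw [Finset.mem_filter] at h1
    obtain ⟨h5, h6, h7, h8⟩ := h1
    exact ⟨h6, h7, ((hmem s).mp h5).2.2.2.2, h8, h5, h2, h3, h4⟩
  have hsepim : ∀ s ∈ F, ∀ s' ∈ F, s ≠ s' → 2 * R ≤ |s.im - s'.im| := by
    intro s hs s' hs' hne
    have h1 := (hprop s hs).2.2.2.1 s' (hprop s' hs').2.2.2.2.1 hne.symm
    have h2 : s - s' = ((s.im - s'.im : ℝ) : ℂ) * Complex.I := by
      apply Complex.ext
      · simp [(hprop s hs).1, (hprop s' hs').1]
      · simp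
    rw [h2, norm_mul, Complex.norm_I, mul_one, Complex.norm_real, Real.norm_eq_abs, hRL] at h1
    exact h1
  have hiso : ∀ s ∈ F, ∀ z ∈ Metric.closedBall s R, z ≠ s → riemannZeta z ≠ 0 := by
    intro s hs z hz hzs h0
    obtain ⟨p1, p2, p3, p4, p5, p6, p7, p8⟩ := hprop s hs
    rw [Metric.mem_closedBall, dist_eq_norm] at hz
    have h1 := (Complex.abs_re_le_norm (z - s)).trans hz
    have h2 := (Complex.abs_im_le_norm (z - s)).trans hz
    rw [Complex.sub_re, p1] at h1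
    rw [Complex.sub_im] at h2
    have h1' := abs_le.mp h1
    have h2' := abs_le.mp h2
    have h3 : z ∈ Zf riemannZeta U1 U2 := by
      rw [hmem]
      exact ⟨by linarith, by linarith, by linarith, by linarith, h0⟩
    have h4 := p4 z h3 hzs
    rw [norm_sub_rev, hRL] at h4
    linarith
  -- the zeros near which zeta is not too large
  set G : Finset ℂ := F.filter (fun s => ∃ t0 : ℝ, |t0 - s.im| ≤ R / 2 ∧ t0 ∉ E) with hG
  set Bd : Finset ℂ := F.filter (fun s => ¬ ∃ t0 : ℝ, |t0 - s.im| ≤ R / 2 ∧ t0 ∉ E) with hBd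
  have hcardGB : (F.card : ℝ) = G.card + Bd.card := by
    have := Finset.card_filter_add_card_filter_not (s := F)
      (fun s => ∃ t0 : ℝ, |t0 - s.im| ≤ R / 2 ∧ t0 ∉ E)
    exact_mod_cast this.symm
  have hEfin : volume E ≠ ⊤ := by
    refine ne_top_of_le_ne_top ?_ (measure_mono hET)
    rw [Real.volume_Icc]; exact ENNReal.ofReal_ne_top
  have hBdc : (Bd.card : ℝ) * R ≤ volume.real E := by
    have := card_le (F := Bd) (w := R / 2) (E := E) (by positivity) hEfin (by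
      intro s hs s' hs' hne
      have := hsepim s (Finset.mem_of_mem_filter s hs) s' (Finset.mem_of_mem_filter s' hs') hne
      linarith) (by
      intro s hs t ht
      by_contra htE
      exact (Finset.mem_filter.1 hs).2 ⟨t, by
        rw [abs_le]; constructor <;> linarith [ht.1, ht.2], htE⟩)
    calc (Bd.card : ℝ) * R = (Bd.card : ℝ) * (2 * (R / 2)) := by ring
      _ ≤ _ := this
  have hpow34 : 1 ≤ L ^ (1 - (-1 / 2 : ℝ) ^ 2 - η) := by
    refine Real.one_le_rpow hL1 ?_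
    norm_num
    linarith
  have hBdc2 : (Bd.card : ℝ) ≤ 1 / 2 * T := by
    have e1 : (Bd.card : ℝ) * R ≤ T / L ^ (3 : ℝ) := hBdc.trans hEv
    have e2 : L ^ (3 : ℝ) = L ^ 3 := by
      rw [← Real.rpow_natCast]; norm_num
    rw [e2, hR, le_div_iff₀ (by positivity)] at e1
    have e3 : (Bd.card : ℝ) * (δ / (2 * L)) * L ^ 3 = (Bd.card : ℝ) * (δ * L * L / 2) := by
      field_simp
    rw [e3] at e1
    have e4 : 2 ≤ δ * L * L / 2 := by
      have : 4 ≤ δ * L := by
        rw [div_le_iff₀ hδ] at hLδ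
        linarith
      nlinarith
    have e5 : (Bd.card : ℝ) * 2 ≤ (Bd.card : ℝ) * (δ * L * L / 2) := by gcongr
    linarith
  have hGc : 1 / 2 * T * L ^ (1 - (-1 / 2 : ℝ) ^ 2 - η) ≤ G.card := by
    have e1 : 1 / 2 * T * 1 ≤ 1 / 2 * T * L ^ (1 - (-1 / 2 : ℝ) ^ 2 - η) := by gcongr
    have e2 : T * L ^ (1 - (-1 / 2 : ℝ) ^ 2 - η) ≤ F.card := hcard
    linarith
  -- the intervals
  set rx : ℝ := Real.exp (-x) * Real.exp (-(1 / 2 + 3 * η) * ℓ) with hrx
  have hrx0 : 0 < rx := by positivity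
  have hrxR : rx ≤ θ * R := by
    have e1 : rx ≤ Real.exp (-(3 * η * ℓ)) * Real.exp (-ℓ) := by
      rw [hrx, ← Real.exp_add, ← Real.exp_add]
      refine Real.exp_le_exp.2 ?_
      linarith
    have e2 : Real.exp (-(3 * η * ℓ)) ≤ θ * δ / 2 := by
      rw [← Real.exp_log (show 0 < θ * δ / 2 by positivity)]
      refine Real.exp_le_exp.2 ?_
      rw [div_le_iff₀ (by positivity)] at h5
      linarith
    have e3 : Real.exp (-ℓ) = L⁻¹ := by
      rw [Real.exp_neg, hLLL, Real.exp_log hL0]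
    rw [e3] at e1
    calc rx ≤ Real.exp (-(3 * η * ℓ)) * L⁻¹ := e1
      _ ≤ θ * δ / 2 * L⁻¹ := by gcongr
      _ = θ * R := by rw [hR]; field_simp
  have hθR : θ * R ≤ R / 4 := by
    have : θ * R ≤ 1 / 4 * R := by gcongr
    linarith
  have hsub : ∀ s ∈ G, Set.Ioo (s.im - rx) (s.im + rx) ⊆ {t : ℝ | t ∈ Set.Icc T (2 * T) ∧
      ‖riemannZeta (1 / 2 + t * I)‖ < Real.exp (-x)} := by
    intro s hs t ht
    obtain ⟨hsF, t0, ht0, ht0E⟩ := Finset.mem_filter.1 hs
    obtain ⟨p1, p2, p3, p4, p5, p6, p7, p8⟩ := hprop s hsF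
    refine ⟨⟨by linarith [ht.1], by linarith [ht.2]⟩, ?_⟩
    have hs1 : s ≠ 1 := by
      rintro rfl
      simp at p6
      linarith
    by_cases hts : t = s.im
    · have : (1 / 2 : ℂ) + t * I = s := by
        apply Complex.ext
        · simp [p1]
        · simp [hts]
      rw [this, p3, norm_zero]
      exact Real.exp_pos _
    · have habs : |t - s.im| < rx := by
        rw [abs_lt]; constructor <;> linarith [ht.1, ht.2]
      have ht0' := abs_le.1 ht0
      have h6 := one_zero (C := C) (θ := θ) (δ := δ) (L := L) (A1 := A1) (η := η) (t0 := t0) (t := t)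
        hC1 hθ0 hθ4 hL1 hδ hδ1 hη0.le hCθ (by rw [← hLLL]; exact hℓδ) hH p3 p1 (by linarith)
        (hdn s hs1 p3 p2) (hiso s hsF) ht0 (hEu t0 ⟨by linarith [ht0'.1], by linarith [ht0'.2]⟩ ht0E)
        (by
          rw [← hLLL]
          have := (abs_le.1 p8).2
          linarith) hts (habs.le.trans hrxR)
      rw [← hLLL] at h6
      refine h6.trans_lt ?_
      calc |t - s.im| * Real.exp ((1 / 2 + 2 * η) * ℓ) < rx * Real.exp ((1 / 2 + 2 * η) * ℓ) := by
            gcongr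
        _ = Real.exp (-x) * Real.exp (-(η * ℓ)) := by
            rw [hrx, mul_assoc, ← Real.exp_add]
            congr 2
            ring
        _ ≤ Real.exp (-x) * 1 := by
            gcongr
            rw [Real.exp_le_one_iff]
            have : 0 ≤ η * ℓ := by positivity
            linarith
        _ = _ := mul_one _
  have hd : (↑G : Set ℂ).PairwiseDisjoint fun s => Set.Ioo (s.im - rx) (s.im + rx) := by
    intro s hs s' hs' hne
    have h1 := hsepim s (Finset.mem_of_mem_filter s (Finset.mem_coe.mp hs)) s'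
      (Finset.mem_of_mem_filter s' (Finset.mem_coe.mp hs')) hne
    rw [Function.onFun, Set.disjoint_left]
    intro t ht ht'
    rcases le_abs.mp h1 with h | h
    · linarith [ht.2, ht'.1, ht.1, ht'.2]
    · linarith [ht.2, ht'.1, ht.1, ht'.2]
  have hmeas : volume.real (⋃ s ∈ G, Set.Ioo (s.im - rx) (s.im + rx)) =
      ∑ s ∈ G, volume.real (Set.Ioo (s.im - rx) (s.im + rx)) :=
    measureReal_biUnion_finset hd (fun s _ => measurableSet_Ioo)
      (fun s _ => by rw [Real.volume_Ioo]; exact ENNReal.ofReal_ne_top)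
  have hle : volume.real (⋃ s ∈ G, Set.Ioo (s.im - rx) (s.im + rx)) ≤
      volume.real {t : ℝ | t ∈ Set.Icc T (2 * T) ∧ ‖riemannZeta (1 / 2 + t * I)‖ < Real.exp (-x)} := by
    refine measureReal_mono (Set.iUnion₂_subset hsub) ?_
    refine ne_top_of_le_ne_top ?_ (measure_mono (fun t ht => ht.1 : _ ⊆ Set.Icc T (2 * T)))
    rw [Real.volume_Icc]; exact ENNReal.ofReal_ne_top
  refine le_trans ?_ hle
  rw [hmeas, Finset.sum_congr rfl (fun s _ => Real.volume_real_Ioo_of_le (by linarith :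
    s.im - rx ≤ s.im + rx))]
  have hsum : ∑ s ∈ G, (s.im + rx - (s.im - rx)) = G.card * (2 * rx) := by
    rw [← nsmul_eq_mul, ← Finset.sum_const]
    exact Finset.sum_congr rfl fun s _ => by ring
  rw [hsum]
  calc T * Real.exp (-x) * L ^ (1 / 4 - ε) ≤
        T * Real.exp (-x) * Real.exp ((1 / 4 - 4 * η) * ℓ) := by
          rw [hLpow]
          have : (1 / 4 - ε) * ℓ ≤ (1 / 4 - 4 * η) * ℓ := by
            refine mul_le_mul_of_nonneg_right ?_ hℓ0.le
            linarith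
          gcongr
    _ = 1 / 2 * T * L ^ (1 - (-1 / 2 : ℝ) ^ 2 - η) * (2 * rx) := by
          rw [hLpow, hrx]
          have : Real.exp ((1 / 4 - 4 * η) * ℓ) =
            Real.exp ((1 - (-1 / 2 : ℝ) ^ 2 - η) * ℓ) * Real.exp (-(1 / 2 + 3 * η) * ℓ) := by
            rw [← Real.exp_add]
            congr 1
            ring
          rw [this]
          ring
    _ ≤ G.card * (2 * rx) := by gcongr

end Pool.Agent.Y781.LT
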