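import Pool.Agent.Y781.LT.Core
import Pool.Agent.Y745.LD.Final
import Pool.Agent.Y141.SW.Der
import Pool.Agent.H370R2.DirGood

set_option autoImplicit false

/-! ZTAIL: zeta is small near the simple zeros with a small derivative (helper781, for the LT project of
helper745). -/

namespace Pool.Agent.Y781.LT

open Pool.Agent.Y745.LT Pool.Agent.Y745.LD H370

theorem t_ZTAIL : P_ZTAIL :=
  core final Pool.Agent.Y914.LD.t_ZUP Pool.Agent.Y655.SW.t_HAR good_zeta
    fun _ hs h0 h1 => Pool.Agent.Y141.SW.deriv_ne_of_simple hs h0 h1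

end Pool.Agent.Y781.LT
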